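import Mathlib
import Pool.Agent.X119.Kap6c

set_option autoImplicit false

namespace Pool.Agent.Results.MP_e4803a_nt.SqrtGolden

open MeasureTheory Filter Topology Finset Polynomial
open Pool.Agent.X119.Cumul Pool.Agent.X119.TrigInt Pool.Agent.X119.Kap6 Pool.Agent.X119.Kap6b
open Pool.Agent.X119.Kap6c
open scoped Real goldenRatio

/-- `a_k = ⌊η^k⌋`. -/
noncomputable def a (η : ℝ) (k : ℕ) : ℕ := ⌊η ^ k⌋₊

/-- `S_n(ω) = ∑_{k=1}^n cos(2π a_k ω)`. -/
noncomputable def S (η : ℝ) (n : ℕ) (ω : ℝ) : ℝ :=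
  ∑ k ∈ Finset.Icc 1 n, Real.cos (2 * π * (a η k : ℝ) * ω)

/-- The `m`-th cumulant of `X` on `[0,1]` with Lebesgue measure. -/
noncomputable def cumulant (X : ℝ → ℝ) (m : ℕ) : ℝ :=
  iteratedDeriv m (fun t : ℝ => Real.log (∫ ω in Set.Icc (0:ℝ) 1, Real.exp (t * X ω))) 0

/-- `I_0(t) = ∑_j (t/2)^{2j}/(j!)²`. -/
noncomputable def bessel (t : ℝ) : ℝ := ∑' j : ℕ, (t / 2) ^ (2 * j) / ((j.factorial : ℝ)) ^ 2

/-- The constants of the independent model. -/
noncomputable def modelCumulant (m : ℕ) : ℝ := iteratedDeriv m (fun t => Real.log (bessel t)) 0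

/-- A Perron number: a real algebraic integer `η > 1` all of whose other conjugates are of absolute
value less than `η`. -/
def IsPerron (η : ℝ) : Prop :=
  1 < η ∧ IsIntegral ℤ η ∧ ∀ z : ℂ, aeval z (minpoly ℚ η) = 0 → z ≠ (η : ℂ) → ‖z‖ < η

/-- The statement of Q1 for a given `η`. -/
def LinearGrowth (η : ℝ) : Prop :=
  ∃ c : ℕ → ℝ, (∀ m, 1 ≤ m → Tendsto (fun n : ℕ => cumulant (S η n) m / n) atTop (𝓝 (c m))) ∧
    ∃ m, 1 ≤ m ∧ c m ≠ modelCumulant m

/-- The statement of Q1. -/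
def Q1 : Prop := ∀ η : ℝ, 1 < η → IsAlgebraic ℚ η → ¬ IsPerron η → LinearGrowth η

/-! ### The windows -/

lemma F_D (a b c d e f : ℤ) 
    (h01 : a + b ≠ 0)    (h02 : a + c ≠ 0)    (h03 : a + d ≠ 0)    (h04 : a + e ≠ 0)    (h05 : a + f ≠ 0)    (h12 : b + c ≠ 0)    (h13 : b + d ≠ 0)    (h14 : b + e ≠ 0)    (h15 : b + f ≠ 0)    (h23 : c + d ≠ 0)    (h24 : c + e ≠ 0)    (h25 : c + f ≠ 0)    (h34 : d + e ≠ 0)    (h35 : d + f ≠ 0)    (h45 : e + f ≠ 0)
    (h012 : a + b + c ≠ 0)    (h013 : a + b + d ≠ 0)    (h014 : a + b + e ≠ 0)    (h015 : a + b + f ≠ 0)    (h023 : a + c + d ≠ 0)    (h024 : a + c + e ≠ 0)    (h025 : a + c + f ≠ 0)    (h034 : a + d + e ≠ 0)    (h035 : a + d + f ≠ 0)    (h045 : a + e + f ≠ 0)    (h123 : b + c + d ≠ 0)    (h124 : b + c + e ≠ 0)    (h125 : b + c + f ≠ 0)    (h134 : b + d + e ≠ 0)    (h135 : b + d + f ≠ 0)    (h145 : b + e + f ≠ 0)    (h234 : c + d + e ≠ 0)    (h235 : c + d + f ≠ 0)    (h245 : c + e + f ≠ 0)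    (h345 : d + e + f ≠ 0) :
    F a b c d e f = 2 := by
  unfold F
  simp only [z_eq_zero h01, z_eq_zero h02, z_eq_zero h03, z_eq_zero h04, z_eq_zero h05, z_eq_zero h12, z_eq_zero h13, z_eq_zero h14, z_eq_zero h15, z_eq_zero h23, z_eq_zero h24, z_eq_zero h25, z_eq_zero h34, z_eq_zero h35, z_eq_zero h45, t_eq_zero h012, t_eq_zero h013, t_eq_zero h014, t_eq_zero h015, t_eq_zero h023, t_eq_zero h024, t_eq_zero h025, t_eq_zero h034, t_eq_zero h035, t_eq_zero h045, t_eq_zero h123, t_eq_zero h124, t_eq_zero h125, t_eq_zero h134, t_eq_zero h135, t_eq_zero h145, t_eq_zero h234, t_eq_zero h235, t_eq_zero h245, t_eq_zero h345]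
  norm_num

/-- two far windows -/
lemma F_win (A B E D G H : ℤ) (hE : 0 < E) (hBE : E < B) (hA : A = B + E + 1) (hH : 2 * A < H)
    (hGH : H < G) (hD : D = G + H + 1) : F A (-B) (-E) (-D) G H = 2 := by
  apply F_D <;> omega

/-! ### The number `√φ` -/

/-- `√φ` -/
noncomputable def et : ℝ := Real.sqrt φ

lemma et_sq : et ^ 2 = φ := Real.sq_sqrt Real.goldenRatio_pos.le

lemma et_pos : 0 < et := Real.sqrt_pos.mpr Real.goldenRatio_pos

lemma phi_ge : (1.6:ℝ) ≤ φ := by
  have h := Real.goldenRatio_sq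
  have := Real.goldenRatio_pos
  nlinarith

lemma et_ge : (1.25:ℝ) ≤ et := by
  have h := et_sq
  have := phi_ge
  have := et_pos
  nlinarith

lemma et_pow_even (j : ℕ) : et ^ (2 * j) = φ ^ j := by rw [pow_mul, et_sq]

lemma a_even (j : ℕ) : a et (2 * j) = ⌊φ ^ j⌋₊ := by unfold a; rw [et_pow_even]

/-! ### `√φ` is not a Perron number -/

lemma rat_indep (p q : ℚ) (h : (p:ℝ) + q * φ = 0) : p = 0 ∧ q = 0 := by
  have hq : q = 0 := by
    by_contra hq
    apply Real.goldenRatio_irrational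
    refine ⟨-p / q, ?_⟩
    have hq' : (q:ℝ) ≠ 0 := by exact_mod_cast hq
    push_cast
    rw [div_eq_iff hq']
    linarith
  subst hq
  simp only [Rat.cast_zero, zero_mul, add_zero] at h
  exact ⟨by exact_mod_cast h, rfl⟩

lemma norm_zero (p q : ℚ) (h : p ^ 2 + p * q - q ^ 2 = 0) : p = 0 ∧ q = 0 := by
  have h1 : ((p:ℝ) + q * φ) * ((p:ℝ) + q * (1 - φ)) = 0 := by
    have h2 := Real.goldenRatio_sq
    have h3 : ((p:ℝ)) ^ 2 + p * q - q ^ 2 = 0 := by exact_mod_cast h
    linear_combination h3 - (q:ℝ) ^ 2 * h2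
  rcases mul_eq_zero.mp h1 with h2 | h2
  · exact rat_indep p q h2
  · have := rat_indep (p + q) (-q) (by push_cast; linarith)
    have h3 : q = 0 := by linarith [this.2]
    exact ⟨by linarith [this.1], h3⟩

lemma key_indep (r0 r1 r2 r3 : ℚ) (h : (r0:ℝ) + r1 * et + r2 * et ^ 2 + r3 * et ^ 3 = 0) :
    r0 = 0 ∧ r1 = 0 ∧ r2 = 0 ∧ r3 = 0 := by
  have hphi := Real.goldenRatio_sq
  have he := et_sq
  have e3 : et ^ 3 = et * φ := by rw [← he]; ring
  rw [e3, he] at h
  have h1 : ((r0:ℝ) + r2 * φ) ^ 2 = φ * (r1 + r3 * φ) ^ 2 := by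
    have : (r0:ℝ) + r2 * φ = -(et * (r1 + r3 * φ)) := by linarith
    rw [this]
    calc (-(et * (r1 + r3 * φ))) ^ 2 = et ^ 2 * (r1 + r3 * φ) ^ 2 := by ring
      _ = _ := by rw [he]
  have h2 := rat_indep (r0 ^ 2 + r2 ^ 2 - (2 * r1 * r3 + r3 ^ 2))
    (2 * r0 * r2 + r2 ^ 2 - (r1 ^ 2 + 2 * r1 * r3 + 2 * r3 ^ 2)) (by
      push_cast
      linear_combination h1 - ((r2:ℝ) ^ 2 - 2 * r1 * r3 - r3 ^ 2 * (φ + 1)) * hphi)
  obtain ⟨hX, hY⟩ := h2
  have h3 : (r0 ^ 2 + r0 * r2 - r2 ^ 2) ^ 2 + (r1 ^ 2 + r1 * r3 - r3 ^ 2) ^ 2 = 0 := by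
    have hX' : r0 ^ 2 + r2 ^ 2 = 2 * r1 * r3 + r3 ^ 2 := by linarith
    have hY' : 2 * r0 * r2 + r2 ^ 2 = r1 ^ 2 + 2 * r1 * r3 + 2 * r3 ^ 2 := by linarith
    have e1 : (r0 ^ 2 + r0 * r2 - r2 ^ 2) ^ 2 = (r0 ^ 2 + r2 ^ 2) ^ 2 +
        (r0 ^ 2 + r2 ^ 2) * (2 * r0 * r2 + r2 ^ 2) - (2 * r0 * r2 + r2 ^ 2) ^ 2 := by ring
    rw [e1, hX', hY']
    ring
  have h4 : r1 ^ 2 + r1 * r3 - r3 ^ 2 = 0 := by nlinarith [sq_nonneg (r0 ^ 2 + r0 * r2 - r2 ^ 2), sq_nonneg (r1 ^ 2 + r1 * r3 - r3 ^ 2)]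
  have h5 : r0 ^ 2 + r0 * r2 - r2 ^ 2 = 0 := by nlinarith [sq_nonneg (r0 ^ 2 + r0 * r2 - r2 ^ 2), sq_nonneg (r1 ^ 2 + r1 * r3 - r3 ^ 2)]
  obtain ⟨a1, a3⟩ := norm_zero r1 r3 h4
  obtain ⟨a0, a2⟩ := norm_zero r0 r2 h5
  exact ⟨a0, a1, a2, a3⟩

lemma et_root : et ^ 4 = et ^ 2 + 1 := by
  have h := Real.goldenRatio_sq
  have he := et_sq
  calc et ^ 4 = (et ^ 2) ^ 2 := by ring
    _ = et ^ 2 + 1 := by rw [he, h]

lemma conj_root (p : ℚ[X]) (hp : aeval et p = 0) : aeval (-et) p = 0 := by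
  set q : ℚ[X] := X ^ 4 - X ^ 2 - 1 with hq
  have hmonic : q.Monic := by rw [hq]; monicity!
  have hdeg : q.natDegree = 4 := by rw [hq]; compute_degree!
  have h1 := modByMonic_add_div p q
  have hq1 : aeval et q = 0 := by
    rw [hq]; simp only [map_sub, map_pow, aeval_X, map_one]; linarith [et_root]
  have hq2 : aeval (-et) q = 0 := by
    rw [hq]; simp only [map_sub, map_pow, aeval_X, map_one]; linarith [et_root, show (-et) ^ 4 = et ^ 4 by ring, show (-et) ^ 2 = et ^ 2 by ring]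
  set r := p %ₘ q with hr
  have hrdeg : r.natDegree < 4 := by
    rw [← hdeg]
    apply natDegree_modByMonic_lt _ hmonic
    intro h; rw [h] at hdeg; simp at hdeg
  have hra : aeval et r = 0 := by
    have := congrArg (aeval et) h1
    rw [map_add, map_mul, hq1, zero_mul, add_zero, hp] at this
    exact this
  have hexp : r = ∑ i ∈ range 4, C (r.coeff i) * X ^ i := by
    conv_lhs => rw [as_sum_range' r 4 hrdeg]
    simp only [← C_mul_X_pow_eq_monomial]
  have hz : (r.coeff 0 : ℝ) + r.coeff 1 * et + r.coeff 2 * et ^ 2 + r.coeff 3 * et ^ 3 = 0 := by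
    rw [hexp] at hra
    simp only [map_add, map_mul, aeval_C, map_pow, aeval_X, sum_range_succ, range_zero, sum_empty,
      pow_zero, mul_one, pow_one, zero_add, eq_ratCast] at hra
    exact hra
  obtain ⟨c0, c1, c2, c3⟩ := key_indep _ _ _ _ hz
  have hr0 : r = 0 := by
    rw [hexp]
    simp [sum_range_succ, c0, c1, c2, c3]
  have := congrArg (aeval (-et)) h1
  rw [hr0, map_add, map_mul, hq2, map_zero, zero_mul, add_zero] at this
  exact this.symm

lemma not_perron : ¬ IsPerron et := by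
  rintro ⟨_, _, h⟩
  have h1 := conj_root _ (minpoly.aeval ℚ et)
  have h2 : aeval ((-et : ℝ) : ℂ) (minpoly ℚ et) = 0 := by
    have := congrArg (algebraMap ℝ ℂ) h1
    rw [map_zero, ← aeval_algebraMap_apply] at this
    exact this
  have h3 := h _ h2 (by
    intro h4
    have : -et = et := by exact_mod_cast h4
    linarith [et_pos])
  rw [Complex.norm_real, Real.norm_eq_abs, abs_neg, abs_of_pos et_pos] at h3
  exact lt_irrefl _ h3

lemma et_integral : IsIntegral ℤ et := by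
  refine ⟨X ^ 4 - X ^ 2 - 1, by monicity!, ?_⟩
  simp only [eval₂_sub, eval₂_pow, eval₂_X, eval₂_one]
  linarith [et_root]

/-! ### Sparsity -/

lemma one_le_pow (k : ℕ) : 1 ≤ et ^ k := one_le_pow₀ (by linarith [et_ge])

lemma a_le (k : ℕ) : (a et k : ℝ) ≤ et ^ k := Nat.floor_le (by linarith [one_le_pow k])

lemma a_gt (k : ℕ) : et ^ k - 1 < a et k := by
  have := Nat.lt_floor_add_one (et ^ k)
  unfold a; linarith

lemma a_pos (k : ℕ) : 0 < a et k := by
  unfold a
  rw [Nat.floor_pos]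
  exact one_le_pow k

lemma a_ge (k : ℕ) : et ^ k ≤ 2 * a et k := by
  have h1 := a_gt k
  have h2 : (1:ℝ) ≤ a et k := by exact_mod_cast a_pos k
  linarith

lemma a_mono {l k : ℕ} (h : l ≤ k) : a et l ≤ a et k :=
  Nat.floor_le_floor (pow_le_pow_right₀ (by linarith [et_ge]) h)

lemma gap {l k : ℕ} (h : l < k) (hne : a et l ≠ a et k) :
    et ^ k ≤ 10 * ((a et k : ℝ) - a et l) := by
  have h1 := a_gt k
  have h2 := a_le l
  have h3 : (1:ℝ) ≤ (a et k : ℝ) - a et l := by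
    have h4 : a et l + 1 ≤ a et k := lt_of_le_of_ne (a_mono h.le) hne
    have h5 : ((a et l + 1 : ℕ) : ℝ) ≤ a et k := by exact_mod_cast h4
    push_cast at h5; linarith
  have h4 : 1.25 * et ^ l ≤ et ^ k := by
    calc 1.25 * et ^ l ≤ et * et ^ l := mul_le_mul_of_nonneg_right et_ge (by linarith [one_le_pow l])
      _ = et ^ (l + 1) := by rw [pow_succ]; ring
      _ ≤ et ^ k := pow_le_pow_right₀ (by linarith [et_ge]) h
  rcases le_total (et ^ k) 10 with h5 | h5
  · linarith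
  · linarith

lemma et_pow20 : 40 < et ^ 20 := by
  have h1 : et ^ 20 = φ ^ 10 := et_pow_even 10
  rw [h1]
  calc (40:ℝ) < 1.6 ^ 10 := by norm_num
    _ ≤ φ ^ 10 := pow_le_pow_left₀ (by norm_num) phi_ge 10

lemma window_card (n : ℕ) (B : ℝ) (hB : 0 < B) :
    (univ.filter fun k : Fin n => B ≤ et ^ ((k:ℕ) + 1) ∧ et ^ ((k:ℕ) + 1) ≤ 40 * B).card ≤ 20 := by
  classical
  set s := univ.filter fun k : Fin n => B ≤ et ^ ((k:ℕ) + 1) ∧ et ^ ((k:ℕ) + 1) ≤ 40 * B with hs
  rcases s.eq_empty_or_nonempty with h | h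
  · rw [h]; simp
  · set k0 := s.min' h with hk0
    have hk0m : k0 ∈ s := min'_mem _ _
    have hk0' := (mem_filter.mp hk0m).2
    calc s.card ≤ (range 20).card := by
          apply card_le_card_of_injOn (fun k : Fin n => (k:ℕ) - (k0:ℕ))
          · intro k hk
            have hk' := (mem_filter.mp hk).2
            have hle : k0 ≤ k := min'_le _ _ hk
            have hle' : (k0:ℕ) ≤ (k:ℕ) := hle
            rw [coe_range, Set.mem_Iio]
            by_contra hcon
            have hcon' : (k0:ℕ) + 20 ≤ k := by simp only at hcon; omega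
            have h1 : et ^ ((k0:ℕ) + 1) * et ^ 20 ≤ et ^ ((k:ℕ) + 1) := by
              rw [← pow_add]
              exact pow_le_pow_right₀ (by linarith [et_ge]) (by omega)
            have h2 := et_pow20
            have h3 : B * 40 < et ^ ((k0:ℕ) + 1) * et ^ 20 := by
              calc B * 40 < B * et ^ 20 := mul_lt_mul_of_pos_left h2 hB
                _ ≤ _ := mul_le_mul_of_nonneg_right hk0'.1 (by linarith)
            linarith [hk'.2]
          · intro k hk k' hk' hkk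
            have hle : k0 ≤ k := min'_le _ _ hk
            have hle' : (k0:ℕ) ≤ (k:ℕ) := hle
            have hle2 : k0 ≤ k' := min'_le _ _ hk'
            have hle2' : (k0:ℕ) ≤ (k':ℕ) := hle2
            simp only at hkk
            exact Fin.ext (by omega)
      _ = 20 := card_range 20

/-- the frequencies indexed by `Fin n` -/
noncomputable def bb (n : ℕ) (k : Fin n) : ℕ := a et ((k:ℕ) + 1)

lemma natAbs_val (n : ℕ) (x : Fin n × Bool) : (val (bb n) x).natAbs = bb n x.1 := by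
  unfold Pool.Agent.X119.Kap6.val
  split_ifs <;> simp

/-- a window of indices, with both signs -/
lemma window_card' (n : ℕ) (B : ℝ) (hB : 0 < B) :
    (univ.filter fun k : Fin n × Bool => B ≤ et ^ ((k.1:ℕ) + 1) ∧ et ^ ((k.1:ℕ) + 1) ≤ 40 * B).card ≤ 40 := by
  classical
  have hsub : (univ.filter fun k : Fin n × Bool => B ≤ et ^ ((k.1:ℕ) + 1) ∧ et ^ ((k.1:ℕ) + 1) ≤ 40 * B) ⊆
      (univ.filter fun k : Fin n => B ≤ et ^ ((k:ℕ) + 1) ∧ et ^ ((k:ℕ) + 1) ≤ 40 * B) ×ˢ (univ : Finset Bool) := by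
    intro x hx
    rw [mem_filter] at hx
    rw [mem_product, mem_filter]
    exact ⟨⟨mem_univ _, hx.2⟩, mem_univ _⟩
  refine (card_le_card hsub).trans ?_
  rw [card_product, card_univ, Fintype.card_bool]
  have := window_card n B hB
  omega

lemma sparse (n : ℕ) : Sparse (bb n) 40 40 3200 := by
  classical
  have hnb : ∀ s, (NB (bb n) s).card ≤ 40 := by
    intro s
    rcases Nat.eq_zero_or_pos s with h0 | h0
    · have : NB (bb n) s = ∅ := by
        unfold NB
        rw [filter_eq_empty_iff]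
        intro x _ h
        rw [natAbs_val, h0] at h
        have := a_pos ((x.1:ℕ) + 1)
        unfold bb at h
        omega
      rw [this]; simp
    · refine (card_le_card ?_).trans (window_card' n (s:ℝ) (by exact_mod_cast h0))
      intro x hx
      unfold NB at hx
      rw [mem_filter, natAbs_val] at hx
      have h2 : a et ((x.1:ℕ) + 1) = s := hx.2
      rw [mem_filter]
      refine ⟨mem_univ _, ?_, ?_⟩
      · rw [← h2]; exact a_le _
      · have := a_ge ((x.1:ℕ) + 1)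
        rw [h2] at this
        have h3 : (0:ℝ) < s := by exact_mod_cast h0
        linarith
  refine ⟨fun k => a_pos _, hnb, ?_, ?_⟩
  · intro s
    rcases Nat.eq_zero_or_pos s with h0 | h0
    · have : NR (bb n) s = ∅ := by
        unfold NR
        rw [filter_eq_empty_iff]
        intro x _ h
        rw [natAbs_val, h0] at h
        have := a_pos ((x.1:ℕ) + 1)
        unfold bb at h
        omega
      rw [this]; simp
    · have hs0 : (0:ℝ) < s := by exact_mod_cast h0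
      refine (card_le_card ?_).trans (window_card' n ((s:ℝ) / 3) (by positivity))
      intro x hx
      unfold NR at hx
      rw [mem_filter, natAbs_val] at hx
      have h2 : a et ((x.1:ℕ) + 1) ≤ s := hx.2.1
      have h3 : s ≤ 3 * a et ((x.1:ℕ) + 1) := hx.2.2
      have h2' : (a et ((x.1:ℕ) + 1) : ℝ) ≤ s := by exact_mod_cast h2
      have h3' : (s:ℝ) ≤ 3 * a et ((x.1:ℕ) + 1) := by exact_mod_cast h3
      have h4 := a_le ((x.1:ℕ) + 1)
      have h5 := a_ge ((x.1:ℕ) + 1)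
      rw [mem_filter]
      exact ⟨mem_univ _, by linarith, by linarith⟩
  · intro s hs
    have hs0 : (0:ℝ) < |(s:ℝ)| := by
      rw [abs_pos]; exact_mod_cast hs
    set Y := univ.filter fun k : Fin n × Bool => |(s:ℝ)| / 2 ≤ et ^ ((k.1:ℕ) + 1) ∧
      et ^ ((k.1:ℕ) + 1) ≤ 40 * (|(s:ℝ)| / 2) with hY
    have hYcard : Y.card ≤ 40 := window_card' n (|(s:ℝ)| / 2) (by positivity)
    -- the larger element lies in `Y`
    have hlarge : ∀ x y : Fin n × Bool, val (bb n) x + val (bb n) y = s →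
        (val (bb n) y).natAbs ≤ (val (bb n) x).natAbs → x ∈ Y := by
      intro x y hxy hle
      have hx := natAbs_val n x
      have hy := natAbs_val n y
      have e1 : |(s:ℝ)| = ((s.natAbs : ℕ) : ℝ) := by
        rw [Nat.cast_natAbs, Int.cast_abs]
      have h1 : s.natAbs ≤ 2 * bb n x.1 := by omega
      have h1' : |(s:ℝ)| ≤ 2 * (a et ((x.1:ℕ) + 1) : ℝ) := by
        rw [e1]; exact_mod_cast h1
      rw [hY, mem_filter]
      refine ⟨mem_univ _, ?_, ?_⟩
      · have := a_le ((x.1:ℕ) + 1)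
        linarith
      · by_cases heq : bb n x.1 = bb n y.1
        · have h2 : s.natAbs = 2 * bb n x.1 := by omega
          have h2' : |(s:ℝ)| = 2 * (a et ((x.1:ℕ) + 1) : ℝ) := by
            rw [e1]; exact_mod_cast h2
          have := a_ge ((x.1:ℕ) + 1)
          linarith
        · have hlt : bb n y.1 < bb n x.1 := by omega
          have hidx : (y.1:ℕ) + 1 < (x.1:ℕ) + 1 := by
            by_contra hcon
            have := a_mono (l := (x.1:ℕ) + 1) (k := (y.1:ℕ) + 1) (by omega)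
            unfold bb at hlt
            omega
          have h3 := gap hidx (by unfold bb at hlt; omega)
          have h4 : bb n x.1 ≤ s.natAbs + bb n y.1 := by omega
          have h4' : (a et ((x.1:ℕ) + 1) : ℝ) ≤ |(s:ℝ)| + a et ((y.1:ℕ) + 1) := by
            rw [e1]; exact_mod_cast h4
          linarith
    have hsub : PR (bb n) s ⊆
        (Y.biUnion fun x => (NB (bb n) (s - val (bb n) x).natAbs).image (fun y => (x, y))) ∪
        (Y.biUnion fun y => (NB (bb n) (s - val (bb n) y).natAbs).image (fun x => (x, y))) := by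
      intro p hp
      unfold PR at hp
      rw [mem_filter] at hp
      have hp2 := hp.2
      rw [mem_union]
      rcases le_total (val (bb n) p.2).natAbs (val (bb n) p.1).natAbs with h | h
      · left
        rw [mem_biUnion]
        refine ⟨p.1, hlarge p.1 p.2 hp2 h, ?_⟩
        rw [mem_image]
        refine ⟨p.2, ?_, rfl⟩
        unfold NB
        rw [mem_filter]
        refine ⟨mem_univ _, ?_⟩
        congr 1; linarith
      · right
        rw [mem_biUnion]
        refine ⟨p.2, hlarge p.2 p.1 (by rw [add_comm]; exact hp2) h, ?_⟩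
        rw [mem_image]
        refine ⟨p.1, ?_, rfl⟩
        unfold NB
        rw [mem_filter]
        refine ⟨mem_univ _, ?_⟩
        congr 1; linarith
    refine (card_le_card hsub).trans ((card_union_le _ _).trans ?_)
    have c1 := card_biUnion_le_card_mul Y
      (fun x => (NB (bb n) (s - val (bb n) x).natAbs).image (fun y => (x, y))) 40
      (fun x _ => card_image_le.trans (hnb _))
    have c2 := card_biUnion_le_card_mul Y
      (fun y => (NB (bb n) (s - val (bb n) y).natAbs).image (fun x => (x, y))) 40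
      (fun x _ => card_image_le.trans (hnb _))
    omega

/-! ### The windows exist -/

/-- Lucas numbers -/
def luc : ℕ → ℕ
  | 0 => 2
  | 1 => 1
  | (n + 2) => luc (n + 1) + luc n

lemma luc_eq (n : ℕ) : (luc n : ℝ) = φ ^ n + ψ ^ n := by
  induction n using Nat.twoStepInduction with
  | zero => norm_num [luc]
  | one => simp [luc, Real.goldenRatio_add_goldenConj]
  | more n h0 h1 =>
    rw [luc]
    push_cast
    rw [h0, h1, pow_add φ n 2, pow_add ψ n 2, Real.goldenRatio_sq, Real.goldenConj_sq]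
    ring

lemma psi_sq_lt : ψ ^ 2 < 1 := by
  have h1 := Real.goldenConj_neg
  have h2 := Real.neg_one_lt_goldenConj
  nlinarith

lemma psi_even (i : ℕ) : 0 < ψ ^ (2 * i) ∧ ψ ^ (2 * i) ≤ 1 := by
  rw [pow_mul]
  have h1 : 0 < ψ ^ 2 := by
    have := Real.goldenConj_neg
    rw [sq]; exact mul_pos_of_neg_of_neg this this
  exact ⟨pow_pos h1 _, pow_le_one₀ h1.le psi_sq_lt.le⟩

lemma floor_odd (i : ℕ) : ⌊φ ^ (2 * i + 1)⌋₊ = luc (2 * i + 1) := by
  have h1 := luc_eq (2 * i + 1)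
  have h2 : ψ ^ (2 * i + 1) = ψ * ψ ^ (2 * i) := by rw [pow_succ]; ring
  have h3 := Real.goldenConj_neg
  have h4 := Real.neg_one_lt_goldenConj
  obtain ⟨h5, h6⟩ := psi_even i
  have h7 : ψ ^ (2 * i + 1) < 0 := by rw [h2]; exact mul_neg_of_neg_of_pos h3 h5
  have h8 : -1 < ψ ^ (2 * i + 1) := by rw [h2]; nlinarith
  rw [Nat.floor_eq_iff (by have := Real.goldenRatio_pos; positivity)]
  constructor <;> linarith

lemma floor_even (i : ℕ) : ⌊φ ^ (2 * i + 2)⌋₊ + 1 = luc (2 * i + 2) := by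
  have h1 := luc_eq (2 * i + 2)
  have h2 : ψ ^ (2 * i + 2) = ψ ^ (2 * i) * ψ ^ 2 := by rw [pow_add]
  obtain ⟨h5, h6⟩ := psi_even i
  have h3 := psi_sq_lt
  have h4 : 0 < ψ ^ 2 := by
    have := Real.goldenConj_neg
    rw [sq]; exact mul_pos_of_neg_of_neg this this
  have h7 : 0 < ψ ^ (2 * i + 2) := by rw [h2]; positivity
  have h8 : ψ ^ (2 * i + 2) < 1 := by rw [h2]; nlinarith
  have h9 : 1 ≤ luc (2 * i + 2) := by
    have h10 : (0:ℝ) < luc (2 * i + 2) := by
      rw [h1]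
      have := Real.goldenRatio_pos
      positivity
    exact_mod_cast h10
  have h11 : ⌊φ ^ (2 * i + 2)⌋₊ = luc (2 * i + 2) - 1 := by
    rw [Nat.floor_eq_iff (by have := Real.goldenRatio_pos; positivity)]
    push_cast [Nat.cast_sub h9]
    constructor <;> linarith
  omega

lemma a_rec (i : ℕ) : a et (4 * i + 6) = a et (4 * i + 4) + a et (4 * i + 2) + 1 := by
  have e1 : 4 * i + 6 = 2 * (2 * (i + 1) + 1) := by ring
  have e2 : 4 * i + 4 = 2 * (2 * i + 2) := by ring
  have e3 : 4 * i + 2 = 2 * (2 * i + 1) := by ring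
  rw [e1, e2, e3, a_even, a_even, a_even, floor_odd, floor_odd]
  have h := floor_even i
  have e4 : 2 * (i + 1) + 1 = (2 * i + 1) + 2 := by ring
  rw [e4, luc]
  have e5 : 2 * i + 1 + 1 = 2 * i + 2 := by ring
  rw [e5]
  omega

lemma a_lt (i : ℕ) : a et (4 * i + 2) < a et (4 * i + 4) := by
  have e2 : 4 * i + 4 = 2 * (2 * i + 2) := by ring
  have e3 : 4 * i + 2 = 2 * (2 * i + 1) := by ring
  rw [e2, e3, a_even, a_even]
  have h1 : φ ^ (2 * i + 1) + 1 ≤ φ ^ (2 * i + 2) := by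
    have h2 := Real.goldenRatio_sq
    have h3 := Real.one_lt_goldenRatio
    have h4 : φ ^ (2 * i + 2) = φ ^ (2 * i) * φ ^ 2 := by rw [pow_add]
    have h5 : φ ^ (2 * i + 1) = φ ^ (2 * i) * φ := by rw [pow_add, pow_one]
    have h6 : 1 ≤ φ ^ (2 * i) := one_le_pow₀ h3.le
    rw [h4, h5, h2]
    nlinarith
  have h2 := Nat.floor_le_floor h1
  rw [Nat.floor_add_one (by have := Real.goldenRatio_pos; positivity)] at h2
  omega

lemma a_far (i j : ℕ) (h : i + 10 ≤ j) : 2 * a et (4 * i + 6) < a et (4 * j + 2) := by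
  have h1 := a_le (4 * i + 6)
  have h2 := a_gt (4 * j + 2)
  have h3 : et ^ (4 * i + 6) * et ^ 20 ≤ et ^ (4 * j + 2) := by
    rw [← pow_add]
    exact pow_le_pow_right₀ (by linarith [et_ge]) (by omega)
  have h4 := et_pow20
  have h5 := one_le_pow (4 * i + 6)
  have h6 : et ^ (4 * i + 6) * 40 ≤ et ^ (4 * i + 6) * et ^ 20 :=
    mul_le_mul_of_nonneg_left h4.le (by linarith)
  have h7 : (2:ℝ) * a et (4 * i + 6) < a et (4 * j + 2) := by linarith
  exact_mod_cast h7

/-- the pair of windows number `p` -/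
noncomputable def win (n N : ℕ) (hn : 8 * N + 42 ≤ n) (p : Fin N × Fin N) : Fin 6 → Fin n × Bool :=
  ![(⟨4 * p.1 + 5, by omega⟩, true), (⟨4 * p.1 + 3, by omega⟩, false), (⟨4 * p.1 + 1, by omega⟩, false),
    (⟨4 * (p.2 + N + 10) + 5, by omega⟩, false), (⟨4 * (p.2 + N + 10) + 3, by omega⟩, true),
    (⟨4 * (p.2 + N + 10) + 1, by omega⟩, true)]

lemma win_inj (n N : ℕ) (hn : 8 * N + 42 ≤ n) : Function.Injective (win n N hn) := by
  intro p q h
  have h1 := congrArg (fun x => ((x 0).1 : ℕ)) h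
  have h2 := congrArg (fun x => ((x 3).1 : ℕ)) h
  simp only [win, Matrix.cons_val] at h1 h2
  apply Prod.ext
  · apply Fin.ext; omega
  · apply Fin.ext; omega

lemma win_val (n N : ℕ) (hn : 8 * N + 42 ≤ n) (p : Fin N × Fin N) :
    win n N hn p ∈ Rel (bb n) 6 ∧
    Pool.Agent.X119.Kap6.C (fun i => val (bb n) (win n N hn p i)) = 2 := by
  have r1 := a_rec p.1
  have r2 := a_rec (p.2 + N + 10)
  have l1 := a_lt p.1
  have l2 := a_lt (p.2 + N + 10)
  have f1 := a_far p.1 (p.2 + N + 10) (by omega)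
  have pos := a_pos (4 * p.1 + 2)
  have e : ∀ i, val (bb n) (win n N hn p i) = (![(a et (4 * p.1 + 6) : ℤ), -(a et (4 * p.1 + 4) : ℤ),
      -(a et (4 * p.1 + 2) : ℤ), -(a et (4 * (p.2 + N + 10) + 6) : ℤ), (a et (4 * (p.2 + N + 10) + 4) : ℤ),
      (a et (4 * (p.2 + N + 10) + 2) : ℤ)] : Fin 6 → ℤ) i := by
    intro i
    fin_cases i <;> simp [win, Pool.Agent.X119.Kap6.val, bb]
  constructor
  · unfold Pool.Agent.X119.Kap6.Rel
    rw [mem_filter]
    refine ⟨mem_univ _, ?_⟩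
    simp only [e, Fin.sum_univ_six, Matrix.cons_val]
    omega
  · simp only [e]
    unfold Pool.Agent.X119.Kap6.C
    simp only [Matrix.cons_val]
    apply F_win <;> omega

/-! ### Conclusion -/

lemma S_eq (n : ℕ) : S et n = SS (bb n) := by
  ext ω
  unfold S SS bb
  rw [Fin.sum_univ_eq_sum_range (fun k => Real.cos (2 * π * (a et (k + 1) : ℝ) * ω)) n,
    Finset.range_eq_Ico, Finset.sum_Ico_add' (fun k => Real.cos (2 * π * (a et k : ℝ) * ω)) 0 n 1]
  rfl

lemma lower_n (n N : ℕ) (hn : 8 * N + 42 ≤ n) :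
    2 * (N:ℝ) ^ 2 - 48 * 46656 * (2 * n * (40 * (3200 * 3200)) +
      2 * n * (40 * (3200 * ((4 * 40) * (4 * 40))))) ≤ 128 * cumulant (S et n) 6 := by
  classical
  have h := lower (bb n) (sparse n) (univ.image (win n N hn)) (by
    intro x hx
    rw [mem_image] at hx
    obtain ⟨p, _, rfl⟩ := hx
    exact win_val n N hn p)
  rw [card_image_of_injective _ (win_inj n N hn), card_univ, Fintype.card_prod, Fintype.card_fin,
    Fintype.card_fin] at h
  rw [S_eq]
  push_cast at h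
  change _ ≤ 128 * kap (SS (bb n)) 6
  linarith

/-- The sixth cumulant grows at least quadratically for `η = √φ`. -/
theorem quadratic : ∀ᶠ n : ℕ in atTop, (1 / 10368 : ℝ) * (n:ℝ) ^ 2 ≤ cumulant (S et n) 6 := by
  set K : ℝ := 48 * 46656 * (2 * (40 * (3200 * 3200)) + 2 * (40 * (3200 * ((4 * 40) * (4 * 40))))) with hK
  obtain ⟨n0, hn0⟩ := exists_nat_ge (81 * K)
  filter_upwards [eventually_ge_atTop (max n0 1000)] with n hn
  have h1 : n0 ≤ n := (le_max_left _ _).trans hn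
  have h2 : 1000 ≤ n := (le_max_right _ _).trans hn
  have h3 := lower_n n ((n - 42) / 8) (by omega)
  have h4 : n ≤ 9 * ((n - 42) / 8) := by omega
  have h4' : (n:ℝ) ≤ 9 * (((n - 42) / 8 : ℕ) : ℝ) := by exact_mod_cast h4
  have h5 : (n:ℝ) ^ 2 ≤ 81 * (((n - 42) / 8 : ℕ) : ℝ) ^ 2 := by
    have : (0:ℝ) ≤ n := Nat.cast_nonneg n
    nlinarith
  have h6 : 81 * K ≤ n := hn0.trans (by exact_mod_cast h1)
  have h7 : 81 * K * n ≤ (n:ℝ) ^ 2 := by
    have : (0:ℝ) ≤ n := Nat.cast_nonneg n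
    nlinarith
  rw [hK] at h7
  nlinarith

theorem result : 1 < et ∧ IsIntegral ℤ et ∧ ¬ IsPerron et ∧
    (∀ᶠ n : ℕ in atTop, (1 / 10368 : ℝ) * (n:ℝ) ^ 2 ≤ cumulant (S et n) 6) ∧
    ¬ (∃ c : ℝ, Tendsto (fun n : ℕ => cumulant (S et n) 6 / n) atTop (𝓝 c)) ∧ ¬ Q1 := by
  have h1 : 1 < et := by linarith [et_ge]
  have hdiv : ¬ (∃ c : ℝ, Tendsto (fun n : ℕ => cumulant (S et n) 6 / n) atTop (𝓝 c)) := by
    rintro ⟨c, hc⟩
    have hinf : Tendsto (fun n : ℕ => cumulant (S et n) 6 / n) atTop atTop := by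
      have h2 : Tendsto (fun n : ℕ => (1 / 10368 : ℝ) * (n:ℝ)) atTop atTop :=
        tendsto_natCast_atTop_atTop.const_mul_atTop (by norm_num)
      refine tendsto_atTop_mono' _ ?_ h2
      filter_upwards [quadratic, eventually_ge_atTop 1] with n hn hn1
      have : (0:ℝ) < n := by exact_mod_cast hn1
      rw [le_div_iff₀ this]
      linarith [hn, show (1 / 10368 : ℝ) * (n:ℝ) * n = (1 / 10368 : ℝ) * (n:ℝ) ^ 2 by ring]
    exact not_tendsto_nhds_of_tendsto_atTop hinf c hc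
  refine ⟨h1, et_integral, not_perron, quadratic, hdiv, ?_⟩
  intro hQ
  obtain ⟨c, hc, _⟩ := hQ et h1 (IsIntegral.tower_top (A := ℚ) et_integral).isAlgebraic not_perron
  exact hdiv ⟨c 6, hc 6 (by norm_num)⟩

end Pool.Agent.Results.MP_e4803a_nt.SqrtGolden
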